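import Pool.Agent.W201.Asym

/-! Blocks of simple zeros in intervals of the length of the mean spacing cost at most two. -/

open Complex Filter Topology Set MeasureTheory
open scoped BigOperators ComplexConjugate

namespace Pool.Agent.R304.GR

open H370 Pool.Agent.W201

/-- the gap function: for every `u ≥ 0` there is `0 ≤ t ≤ 1/2` with
`1 - (4 t K(u) - 2 t²) ≤ -0.3 + 1.6 u` -/
lemma gap_line {u : ℝ} (h0 : 0 ≤ u) :
    ∃ t : ℝ, 0 ≤ t ∧ t ≤ 1 / 2 ∧ 1 - (4 * t * H344.KK u - 2 * t ^ 2) ≤ -0.3 + 1.6 * u := by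
  rcases le_or_gt u 0.6 with h1 | h1
  · refine ⟨1 / 2, by norm_num, le_rfl, ?_⟩
    have h2 := H344.KK_lower u
    have h3 := Expl.cMTinv_num
    have h4 : (2 * Real.pi * u) ^ 2 / 2 * (cMTinv - 5 / 4) ≤ 19.7394 * u ^ 2 * 0.077503 := by
      have h5 : (2 * Real.pi * u) ^ 2 / 2 = 2 * Real.pi ^ 2 * u ^ 2 := by ring
      rw [h5]
      apply mul_le_mul
      · have := pi_sq_hi
        have h6 : 0 ≤ u ^ 2 := sq_nonneg u
        nlinarith
      · linarith
      · have := H344.cMTinv_ge; linarith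
      · positivity
    have h7 : 1 - 1.52987 * u ^ 2 ≤ H344.KK u := by
      have h6 : 0 ≤ u ^ 2 := sq_nonneg u
      norm_num at h4 ⊢
      nlinarith
    norm_num at h7 h1 ⊢
    nlinarith
  · obtain ⟨t, ht0, ht1, ht⟩ := gap_small (u := u) h0
    refine ⟨t, ht0, ht1, ht.trans ?_⟩
    norm_num at h1 ⊢
    linarith

/-- the kernel at scale `Λ`, `Λ σ = 2 π θ` -/
theorem gap_scaled {σ θ Λ : ℝ} (hσ0 : 0 < σ) (hθ0 : 0 < θ) (hΛ : Λ * σ = 2 * Real.pi * θ) :
    ∀ x y : ℝ, x < y → ∃ t : ℝ, |t| ≤ 1 / 2 ∧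
      1 - (4 * t * (phi Λ ((x : ℂ) - y)).re - 2 * t ^ 2) ≤
        -0.3 + 1.6 * (θ * ((y - x) / σ)) + (y - x) ^ 2 / 4 := by
  have hphi : ∀ x y : ℝ, (phi Λ ((x : ℂ) - y)).re =
      H344.KK (θ * ((y - x) / σ)) * Real.exp (-(y - x) ^ 2 / 8) := by
    intro x y
    rw [phi_sub_symm, phi_sub_re]
    unfold H344.KK
    congr 4
    have : Λ = 2 * Real.pi * θ / σ := by rw [← hΛ]; field_simp
    rw [this]
    field_simp
  have hE : ∀ z : ℝ, 0 ≤ 1 - Real.exp (-z ^ 2 / 8) ∧ 1 - Real.exp (-z ^ 2 / 8) ≤ z ^ 2 / 8 := by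
    intro z
    constructor
    · have : Real.exp (-z ^ 2 / 8) ≤ 1 := Real.exp_le_one_iff.mpr (by nlinarith [sq_nonneg z])
      linarith
    · have := Real.add_one_le_exp (-z ^ 2 / 8)
      linarith
  intro x y hxy
  have hg0 : 0 < (y - x) / σ := div_pos (by linarith) hσ0
  obtain ⟨t, ht0, ht1, ht2⟩ := gap_line (u := θ * ((y - x) / σ)) (by positivity)
  refine ⟨t, by rw [abs_of_nonneg ht0]; exact ht1, ?_⟩
  rw [hphi]
  have h1 := perturb (t := t) (E := Real.exp (-(y - x) ^ 2 / 8))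
    (by rw [abs_of_nonneg ht0]; exact ht1) (KK_abs (θ * ((y - x) / σ))) (hE (y - x)).1 ht2
  refine h1.trans ?_
  have h2 := (hE (y - x)).2
  linarith

/-- the chain lemma -/
theorem chainB {Λ ν μ : ℝ} :
    ∀ (n : ℕ) (S : Finset ℝ), S.card = n → ∀ hne : S.Nonempty,
      (∀ x ∈ S, ∀ y ∈ S, x < y → ∃ t : ℝ, |t| ≤ 1 / 2 ∧
        1 - (4 * t * (phi Λ ((x : ℂ) - y)).re - 2 * t ^ 2) ≤ -ν + μ * (y - x)) →
      ∃ Y : ℝ → ℝ → ℝ, (∀ v : ℝ → ℂ, ∑ x ∈ S, ∑ y ∈ S, Y x y * (conj (v x) * v y).re ≤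
          ∑ x ∈ S, ‖v x‖ ^ 2 - 1 / 2 * ‖v (S.min' hne)‖ ^ 2) ∧
        (S.card : ℝ) - YT Λ S Y ≤ 1 - ν * ((S.card : ℝ) - 1) + μ * (S.max' hne - S.min' hne) := by
  classical
  intro n
  induction n using Nat.strong_induction_on with
  | _ n ih =>
    intro S hSn hne hk
    set x1 := S.min' hne with hx1
    have hx1S : x1 ∈ S := S.min'_mem hne
    set S1 := S.erase x1 with hS1
    have hSins : insert x1 S1 = S := Finset.insert_erase hx1S
    have hx1S1 : x1 ∉ S1 := Finset.notMem_erase _ _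
    rcases S1.eq_empty_or_nonempty with hS1e | hS1ne
    · have hS : S = {x1} := by rw [← hSins, hS1e]; rfl
      refine ⟨fun _ _ => 0, fun v => ?_, ?_⟩
      · simp only [zero_mul, Finset.sum_const_zero]
        have : ‖v x1‖ ^ 2 ≤ ∑ x ∈ S, ‖v x‖ ^ 2 :=
          Finset.single_le_sum (f := fun x => ‖v x‖ ^ 2) (fun x _ => by positivity) hx1S
        have h0 : 0 ≤ ‖v x1‖ ^ 2 := by positivity
        linarith
      · have e1 : YT Λ S (fun _ _ => 0) = 0 := by unfold YT; simp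
        have e2 : S.max' hne = x1 := by
          have h3 : ∀ z ∈ S, z = x1 := by
            intro z hz
            rw [hS] at hz
            exact Finset.mem_singleton.mp hz
          exact h3 _ (S.max'_mem hne)
        have e3 : (S.card : ℝ) = 1 := by rw [hS]; simp
        rw [e1, e2, e3]
        simp
    · have hc1 : S1.card < n := by rw [← hSn]; exact Finset.card_erase_lt_of_mem hx1S
      obtain ⟨Y1, hY1, hY1c⟩ := ih _ hc1 S1 rfl hS1ne (fun x hx y hy hxy =>
        hk x (Finset.mem_of_mem_erase hx) y (Finset.mem_of_mem_erase hy) hxy)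
      set x2 := S1.min' hS1ne with hx2
      have hx2S1 : x2 ∈ S1 := S1.min'_mem hS1ne
      have hx2S : x2 ∈ S := Finset.mem_of_mem_erase hx2S1
      have h12 : x1 < x2 := lt_of_le_of_ne (S.min'_le x2 hx2S)
        (Ne.symm (Finset.ne_of_mem_erase hx2S1))
      have hmax : S1.max' hS1ne = S.max' hne := by
        apply le_antisymm
        · exact S.le_max' _ (Finset.mem_of_mem_erase (S1.max'_mem hS1ne))
        · apply S1.le_max'
          rw [hS1, Finset.mem_erase]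
          refine ⟨?_, S.max'_mem hne⟩
          have := S.le_max' x2 hx2S
          exact (h12.trans_le this).ne'
      obtain ⟨t, ht, htc⟩ := hk x1 hx1S x2 hx2S h12
      refine ⟨ext x1 x2 S1 Y1 t, fun v => ?_, ?_⟩
      · have h1 := ext_sum x1 x2 S1 hx1S1 hx2S1 Y1 t (fun x y => (conj (v x) * v y).re)
        rw [hSins] at h1
        rw [h1]
        have h2 := hY1 v
        have h3 : ∑ x ∈ S, ‖v x‖ ^ 2 = ‖v x1‖ ^ 2 + ∑ x ∈ S1, ‖v x‖ ^ 2 := by
          rw [← hSins, Finset.sum_insert hx1S1]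
        rw [h3]
        have h4 : (conj (v x1) * v x2).re + (conj (v x2) * v x1).re =
            2 * (conj (v x1) * v x2).re := by
          simp only [Complex.mul_re, Complex.conj_re, Complex.conj_im]
          ring
        have h5 : |(conj (v x1) * v x2).re| ≤ ‖v x1‖ * ‖v x2‖ := by
          refine (Complex.abs_re_le_norm _).trans ?_
          rw [norm_mul, Complex.norm_conj]
        have h6 : t * (2 * (conj (v x1) * v x2).re) ≤
            1 / 2 * (‖v x1‖ ^ 2 + ‖v x2‖ ^ 2) := by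
          have a1 : t * (2 * (conj (v x1) * v x2).re) ≤ |t| * (2 * |(conj (v x1) * v x2).re|) := by
            have := le_abs_self (t * (2 * (conj (v x1) * v x2).re))
            rw [abs_mul, abs_mul, abs_two] at this
            exact this
          have a2 : |t| * (2 * |(conj (v x1) * v x2).re|) ≤ 1 / 2 * (2 * (‖v x1‖ * ‖v x2‖)) := by
            apply mul_le_mul ht _ (by positivity) (by norm_num)
            linarith
          have a3 := two_mul_le_add_sq (‖v x1‖) (‖v x2‖)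
          linarith
        rw [h4]
        linarith
      · have h1 := ext_YT Λ x1 x2 S1 hx1S1 hx2S1 Y1 t
        rw [hSins] at h1
        rw [h1]
        have h2 : (S.card : ℝ) = S1.card + 1 := by
          rw [← hSins, Finset.card_insert_of_notMem hx1S1]; push_cast; ring
        rw [h2]
        rw [hmax] at hY1c
        have h3 : μ * (S.max' hne - x1) = μ * (S.max' hne - x2) + μ * (x2 - x1) := by ring
        have h4 : ν * ((S1.card : ℝ) + 1 - 1) = ν * ((S1.card : ℝ) - 1) + ν := by ring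
        rw [h3, h4]
        linarith

/-- the cost of a block -/
def Cost (Λ q : ℝ) (S : Finset ℝ) : Prop := ∃ Y : ℝ → ℝ → ℝ,
  (∀ v : ℝ → ℂ, ∑ x ∈ S, ∑ y ∈ S, Y x y * (conj (v x) * v y).re ≤ ∑ x ∈ S, ‖v x‖ ^ 2) ∧
    (S.card : ℝ) - YT Λ S Y ≤ q

lemma Cost.zero_of_card {Λ q : ℝ} {S : Finset ℝ} (h : (S.card : ℝ) ≤ q) : Cost Λ q S := by
  refine ⟨fun _ _ => 0, fun v => ?_, ?_⟩
  · simp only [zero_mul, Finset.sum_const_zero]
    exact Finset.sum_nonneg fun x _ => by positivity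
  · have e1 : YT Λ S (fun _ _ => 0) = 0 := by unfold YT; simp
    rw [e1, sub_zero]; exact h

/-- **the cost of a block in an interval of length `s`** -/
theorem block_cost {σ θ Λ s : ℝ} (hσ0 : 0 < σ) (hθ0 : 0 < θ) (hΛ : Λ * σ = 2 * Real.pi * θ)
    (hs : 0 ≤ s) (hs1 : 1.6 * (θ * (s / σ)) + s ^ 2 / 4 ≤ 1.6) {S : Finset ℝ}
    (hS : ∀ x ∈ S, ∀ y ∈ S, y - x ≤ s) : Cost Λ 2 S := by
  rcases le_or_gt S.card 2 with hc | hc
  · exact Cost.zero_of_card (by exact_mod_cast hc)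
  · have hne : S.Nonempty := Finset.card_pos.mp (by omega)
    obtain ⟨Y, hY1, hY2⟩ := chainB (Λ := Λ) (ν := 0.3) (μ := 1.6 * (θ / σ) + s / 4) S.card S rfl hne
      (by
        intro x hx y hy hxy
        obtain ⟨t, ht, h⟩ := gap_scaled hσ0 hθ0 hΛ x y hxy
        refine ⟨t, ht, h.trans ?_⟩
        have h1 := hS x hx y hy
        have h2 : (y - x) ^ 2 ≤ s * (y - x) := by nlinarith
        have h3 : 1.6 * (θ * ((y - x) / σ)) = 1.6 * (θ / σ) * (y - x) := by ring
        rw [h3]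
        nlinarith)
    refine ⟨Y, fun v => (hY1 v).trans (by
      have : 0 ≤ ‖v (S.min' hne)‖ ^ 2 := by positivity
      linarith), hY2.trans ?_⟩
    have h1 := hS _ (S.min'_mem hne) _ (S.max'_mem hne)
    have h2 : (3 : ℝ) ≤ S.card := by exact_mod_cast hc
    have h3 : (1.6 * (θ / σ) + s / 4) * (S.max' hne - S.min' hne) ≤
        (1.6 * (θ / σ) + s / 4) * s := mul_le_mul_of_nonneg_left h1 (by positivity)
    have h4 : (1.6 * (θ / σ) + s / 4) * s = 1.6 * (θ * (s / σ)) + s ^ 2 / 4 := by ring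
    norm_num at hs1 h3 h4 ⊢
    linarith

lemma Cost.union {Λ a b : ℝ} {A B : Finset ℝ} (hd : Disjoint A B) (hA : Cost Λ a A)
    (hB : Cost Λ b B) : Cost Λ (a + b) (A ∪ B) := by
  obtain ⟨YA, a1, a2⟩ := hA
  obtain ⟨YB, b1, b2⟩ := hB
  obtain ⟨Y, h1, h2⟩ := H344.glue Λ A B hd YA YB a1 b1
  refine ⟨Y, h1, ?_⟩
  rw [h2, Finset.card_union_of_disjoint hd]
  push_cast
  linarith

open Classical in
/-- the cost of a set that is divided into blocks -/
theorem blocks_cost {σ θ Λ s : ℝ} (hσ0 : 0 < σ) (hθ0 : 0 < θ) (hΛ : Λ * σ = 2 * Real.pi * θ)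
    (hs : 0 ≤ s) (hs1 : 1.6 * (θ * (s / σ)) + s ^ 2 / 4 ≤ 1.6) (S : Finset ℝ) (lab : ℝ → ℤ)
    (hS : ∀ x ∈ S, ∀ y ∈ S, lab x = lab y → y - x ≤ s) :
    ∀ I : Finset ℤ, Cost Λ (2 * (I.card : ℝ)) (S.filter (fun x => lab x ∈ I)) := by
  intro I
  induction I using Finset.induction_on with
  | empty =>
    simp only [Finset.notMem_empty, Finset.filter_false, Finset.card_empty, Nat.cast_zero, mul_zero]
    exact Cost.zero_of_card (by simp)
  | insert i I hi ih =>
    have h1 : Cost Λ 2 (S.filter (fun x => lab x = i)) := by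
      refine block_cost hσ0 hθ0 hΛ hs hs1 fun x hx y hy => ?_
      rw [Finset.mem_filter] at hx hy
      exact hS x hx.1 y hy.1 (hx.2.trans hy.2.symm)
    have hd : Disjoint (S.filter (fun x => lab x = i)) (S.filter (fun x => lab x ∈ I)) := by
      rw [Finset.disjoint_left]
      intro x hx hx'
      rw [Finset.mem_filter] at hx hx'
      exact hi (hx.2 ▸ hx'.2)
    have h2 := h1.union hd ih
    have e1 : S.filter (fun x => lab x = i) ∪ S.filter (fun x => lab x ∈ I) =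
        S.filter (fun x => lab x ∈ insert i I) := by
      ext x
      simp only [Finset.mem_union, Finset.mem_filter, Finset.mem_insert]
      tauto
    rw [e1] at h2
    rw [Finset.card_insert_of_notMem hi]
    push_cast
    have e2 : 2 * ((I.card : ℝ) + 1) = 2 + 2 * (I.card : ℝ) := by ring
    rw [e2]
    exact h2

/-- **the number of blocks that contain simple zeros** -/
theorem blocks_main {F : ℂ → ℂ} (hF : GoodL F) {U1 U2 : ℝ} (hU : 1 ≤ U1) {σ θ Λ s : ℝ}
    (hσ0 : 0 < σ) (hθ0 : 0 < θ) (hΛ : Λ * σ = 2 * Real.pi * θ) (hs : 0 ≤ s)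
    (hs1 : 1.6 * (θ * (s / σ)) + s ^ 2 / 4 ≤ 1.6) (lab : ℝ → ℤ)
    (hS : ∀ x ∈ SF F U1 U2, ∀ y ∈ SF F U1 U2, lab x = lab y → y - x ≤ s) :
    2 * (NN F U1 U2 : ℝ) - QQ F Λ U1 U2 ≤ 2 * (((SF F U1 U2).image lab).card : ℝ) := by
  classical
  obtain ⟨Y, hY1, hY2⟩ := blocks_cost hσ0 hθ0 hΛ hs hs1 (SF F U1 U2) lab hS
    ((SF F U1 U2).image lab)
  have e : (SF F U1 U2).filter (fun x => lab x ∈ (SF F U1 U2).image lab) = SF F U1 U2 :=
    Finset.filter_true_of_mem fun x hx => Finset.mem_image_of_mem lab hx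
  rw [e] at hY1 hY2
  have h1 := (trace_zeros hF hU (U2 := U2) Λ Y hY1).1
  rw [Ns_card hF hU] at h1
  linarith

end Pool.Agent.R304.GR
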