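import Pool.Agent.H370R2.Digamma
import Pool.Agent.R304.SG.ZR

/-! The Riemann-Siegel theta function. -/

open Complex Filter Topology Set MeasureTheory

namespace Pool.Agent.R304.GR

open H370 H370.DG

/-- the derivative of the theta function -/
noncomputable def psi (u : ℝ) : ℝ :=
  (deriv Gamma (1 / 4 + I * u / 2) / Gamma (1 / 4 + I * u / 2)).re / 2 - Real.log Real.pi / 2

/-- the theta function -/
noncomputable def vt (t : ℝ) : ℝ := ∫ u in (0 : ℝ)..t,
  ((deriv Gamma (1 / 4 + I * u / 2) / Gamma (1 / 4 + I * u / 2)).re / 2 - Real.log Real.pi / 2)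

lemma re_pos (u : ℝ) : 0 < (1 / 4 + I * u / 2 : ℂ).re := by simp

lemma gamma_an : AnalyticOnNhd ℂ Gamma {s : ℂ | 0 < s.re} := by
  refine DifferentiableOn.analyticOnNhd (fun s hs => ?_) (isOpen_lt continuous_const continuous_re)
  refine (differentiableAt_Gamma _ fun m hm => ?_).differentiableWithinAt
  have h1 : 0 < s.re := hs
  rw [hm] at h1
  simp at h1
  have hm0 : (0 : ℝ) ≤ m := Nat.cast_nonneg m
  linarith

lemma psi_cont : Continuous psi := by
  unfold psi
  have h1 : Continuous fun u : ℝ => Gamma (1 / 4 + I * u / 2) := SG.gamma_cont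
  have h2 : Continuous fun u : ℝ => deriv Gamma (1 / 4 + I * u / 2) := by
    rw [continuous_iff_continuousAt]
    intro u
    have h3 : ContinuousAt (deriv Gamma) (1 / 4 + I * u / 2) :=
      (gamma_an.deriv _ (re_pos u)).continuousAt
    exact ContinuousAt.comp (f := fun u : ℝ => (1 / 4 + I * u / 2 : ℂ)) h3 (by fun_prop)
  have h3 := h2.div h1 (fun u => SG.gamma_ne u)
  exact ((Complex.continuous_re.comp h3).div_const 2).sub continuous_const

lemma vt_deriv (t : ℝ) : HasDerivAt vt (psi t) t :=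
  intervalIntegral.integral_hasDerivAt_right (psi_cont.intervalIntegrable _ _)
    psi_cont.aestronglyMeasurable.stronglyMeasurableAtFilter psi_cont.continuousAt

lemma vt_cont : Continuous vt := continuous_iff_continuousAt.mpr fun t => (vt_deriv t).continuousAt

lemma vt_zero : vt 0 = 0 := by unfold vt; simp

/-- the theta function by means of a branch of `log Γ` -/
lemma vt_eq (t : ℝ) : vt t = (lG (1 / 4 + I * t / 2)).im - (lG (1 / 4)).im -
    t / 2 * Real.log Real.pi := by
  set w : ℝ → ℝ := fun t => (lG (1 / 4 + I * t / 2)).im - (lG (1 / 4)).im -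
    t / 2 * Real.log Real.pi with hw
  have hd : ∀ t, HasDerivAt w (psi t) t := by
    intro t
    have h1 := hasDerivAt_lG (re_pos t)
    rw [← logDeriv_Gamma (re_pos t), logDeriv_apply] at h1
    have h2 : HasDerivAt (fun u : ℝ => (1 / 4 + I * u / 2 : ℂ)) (I / 2) t := by
      have h3 : HasDerivAt (fun u : ℝ => (u : ℂ)) 1 t := Complex.ofRealCLM.hasDerivAt
      have h4 := ((h3.const_mul I).div_const 2).const_add (1 / 4 : ℂ)
      simpa using h4
    have h5 := HasDerivAt.comp (h₂ := lG) t h1 h2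
    have h6 := (Complex.imCLM.hasFDerivAt.comp_hasDerivAt t h5)
    have h7 : HasDerivAt (fun u : ℝ => (lG (1 / 4 + I * u / 2)).im)
        ((deriv Gamma (1 / 4 + I * t / 2) / Gamma (1 / 4 + I * t / 2)).re / 2) t := by
      refine h6.congr_deriv ?_
      simp only [Complex.imCLM_apply]
      set d := deriv Gamma (1 / 4 + I * t / 2) / Gamma (1 / 4 + I * t / 2)
      have : d * (I / 2) = (d * I) / 2 := by ring
      rw [this]
      have e2 : (d * I / 2 : ℂ) = (d * I) * ((1 / 2 : ℝ) : ℂ) := by push_cast; ring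
      rw [e2, Complex.im_mul_ofReal, Complex.mul_I_im]
      ring
    have h8 := (h7.sub_const ((lG (1 / 4)).im)).sub
      (((hasDerivAt_id t).div_const 2).mul_const (Real.log Real.pi))
    refine h8.congr_deriv ?_
    unfold psi
    ring
  have h0 : w 0 = 0 := by
    rw [hw]
    simp
  have hconst : ∀ t, w t - vt t = w 0 - vt 0 := by
    intro t
    have hdiff : ∀ x, HasDerivAt (fun t => w t - vt t) 0 x := fun x => by
      have := (hd x).sub (vt_deriv x)
      rw [sub_self] at this
      exact this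
    exact is_const_of_deriv_eq_zero (fun x => (hdiff x).differentiableAt)
      (fun x => (hdiff x).deriv) t 0
  have := hconst t
  rw [h0, vt_zero, sub_zero, sub_eq_zero] at this
  exact this.symm

/-- `exp (i ϑ(t))` is the phase -/
theorem exp_vt (t : ℝ) : cexp (I * (vt t : ℂ)) = SG.phase t := by
  have key : ∀ s : ℂ, 0 < s.re → cexp (I * ((lG s).im : ℂ)) = Gamma s / (‖Gamma s‖ : ℂ) := by
    intro s hs
    have h1 := exp_lG hs
    have h2 : cexp (lG s) = ((Real.exp (lG s).re : ℝ) : ℂ) * cexp (I * ((lG s).im : ℂ)) := by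
      rw [Complex.ofReal_exp, ← Complex.exp_add]
      congr 1
      rw [mul_comm I]
      exact (Complex.re_add_im _).symm
    have h3 : ‖Gamma s‖ = Real.exp (lG s).re := by
      rw [← h1, Complex.norm_exp]
    have h4 : ((Real.exp (lG s).re : ℝ) : ℂ) ≠ 0 := by
      exact_mod_cast (Real.exp_pos _).ne'
    rw [h3, ← h1, h2, eq_div_iff h4, mul_comm]
  have hq : cexp (I * ((lG (1 / 4)).im : ℂ)) = 1 := by
    rw [key (1 / 4) (by norm_num)]
    have h1 : (1 / 4 : ℂ) = ((1 / 4 : ℝ) : ℂ) := by push_cast; rfl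
    have h2 : Gamma (1 / 4) = ((Real.Gamma (1 / 4) : ℝ) : ℂ) := by
      rw [h1, Complex.Gamma_ofReal]
    have h3 : 0 < Real.Gamma (1 / 4) := Real.Gamma_pos_of_pos (by norm_num)
    rw [h2, Complex.norm_real, Real.norm_eq_abs, abs_of_pos h3]
    exact div_self (by exact_mod_cast h3.ne')
  rw [vt_eq]
  push_cast
  have e : I * (((lG (1 / 4 + I * t / 2)).im : ℂ) - ((lG (1 / 4)).im : ℂ) -
      t / 2 * (Real.log Real.pi : ℂ)) = I * ((lG (1 / 4 + I * t / 2)).im : ℂ) +
      (-(I * ((lG (1 / 4)).im : ℂ))) + (-(I * (t / 2) * (Real.log Real.pi : ℂ))) := by ring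
  rw [e, Complex.exp_add, Complex.exp_add, key _ (re_pos t), Complex.exp_neg (I * _), hq]
  unfold SG.phase
  simp

/-- the derivative of the theta function is about `(1/2) log t` -/
theorem psi_bound : ∃ C : ℝ, 0 < C ∧ ∀ t : ℝ, 1 ≤ t → |psi t - Real.log t / 2| ≤ C := by
  obtain ⟨C, hC⟩ := digamma_bound
  refine ⟨|C| / 2 + Real.log 2 / 2 + Real.log Real.pi / 2, ?_, fun t ht => ?_⟩
  · have h1 : 0 < Real.log 2 := Real.log_pos (by norm_num)
    have h2 : 0 < Real.log Real.pi := Real.log_pos (by linarith [Real.pi_gt_three])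
    positivity
  · have h1 := hC (1 / 4 + I * t / 2) (by simp) (by simp; norm_num) (by
      simp
      rw [abs_of_pos (by linarith)]
      linarith)
    have him : (1 / 4 + I * t / 2 : ℂ).im = t / 2 := by simp
    rw [him, abs_of_pos (by linarith), logDeriv_apply] at h1
    have h2 := (Complex.abs_re_le_norm _).trans (h1.trans (le_abs_self C))
    rw [Complex.sub_re, Complex.ofReal_re, Real.log_div (by linarith) (by norm_num)] at h2
    unfold psi
    have h3 : 0 < Real.log 2 := Real.log_pos (by norm_num)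
    have h4 : 0 < Real.log Real.pi := Real.log_pos (by linarith [Real.pi_gt_three])
    set d := (deriv Gamma (1 / 4 + I * t / 2) / Gamma (1 / 4 + I * t / 2)).re
    rw [abs_le] at h2 ⊢
    constructor
    · linarith [h2.1]
    · linarith [h2.2]

/-- points in one Gram interval are close -/
theorem gram_close : ∃ C : ℝ, 0 < C ∧ ∀ T : ℝ, 1 ≤ T → ∀ x y : ℝ, T ≤ x → x ≤ y →
    (Real.log T / 2 - C) * (y - x) ≤ vt y - vt x := by
  obtain ⟨C, hC, h⟩ := psi_bound
  refine ⟨C, hC, fun T hT x y hTx hxy => ?_⟩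
  rcases eq_or_lt_of_le hxy with rfl | hlt
  · simp
  · obtain ⟨c, hc, hc'⟩ := exists_hasDerivAt_eq_slope vt psi hlt vt_cont.continuousOn
      (fun u _ => vt_deriv u)
    have h1 : vt y - vt x = psi c * (y - x) := by
      rw [hc']
      have : y - x ≠ 0 := by linarith
      field_simp
    rw [h1]
    apply mul_le_mul_of_nonneg_right _ (by linarith)
    have hcT : T ≤ c := hTx.trans hc.1.le
    have h2 := (abs_le.mp (h c (hT.trans hcT))).1
    have h3 : Real.log T ≤ Real.log c := Real.log_le_log (by linarith) hcT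
    linarith

/-- an upper bound -/
theorem vt_upper : ∃ C : ℝ, 0 < C ∧ ∀ T : ℝ, 1 ≤ T → vt T ≤ T * Real.log T / 2 + C * T := by
  obtain ⟨C, hC, h⟩ := psi_bound
  refine ⟨C + |vt 1|, by positivity, fun T hT => ?_⟩
  rcases eq_or_lt_of_le hT with rfl | hlt
  · simp
    have := le_abs_self (vt 1)
    linarith
  · obtain ⟨c, hc, hc'⟩ := exists_hasDerivAt_eq_slope vt psi hlt vt_cont.continuousOn
      (fun u _ => vt_deriv u)
    have h1 : vt T - vt 1 = psi c * (T - 1) := by
      rw [hc']
      have : T - 1 ≠ 0 := by linarith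
      field_simp
    have h2 := (abs_le.mp (h c hc.1.le)).2
    have h3 : Real.log c ≤ Real.log T := Real.log_le_log (by linarith [hc.1]) hc.2.le
    have h4 : 0 ≤ Real.log T := Real.log_nonneg hT
    have h5 : psi c * (T - 1) ≤ (Real.log T / 2 + C) * (T - 1) :=
      mul_le_mul_of_nonneg_right (by linarith) (by linarith)
    have h6 := le_abs_self (vt 1)
    have h7 : 0 ≤ |vt 1| := abs_nonneg _
    nlinarith

end Pool.Agent.R304.GR
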