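import Pool.Agent.R304.GR.Main

/-! Dyadic summation. -/

open Complex Filter Topology Set MeasureTheory
open scoped BigOperators ComplexConjugate

namespace Pool.Agent.R304.GR

open H370 Pool.Agent.W201

lemma vt_grow : ∃ T1 : ℝ, 1 ≤ T1 ∧ ∀ x y : ℝ, T1 ≤ x → x ≤ y → (y - x) / 2 ≤ vt y - vt x := by
  obtain ⟨C, hC, h⟩ := gram_close
  obtain ⟨T1, hT1⟩ := (Real.tendsto_log_atTop.eventually_ge_atTop (2 * C + 1)).exists_forall_of_atTop
  refine ⟨max 1 T1, le_max_left _ _, fun x y hx hxy => ?_⟩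
  have h1 := h (max 1 T1) (le_max_left _ _) x y hx hxy
  have h2 := hT1 (max 1 T1) (le_max_right _ _)
  have h3 : 0 ≤ y - x := by linarith
  nlinarith

theorem vt_mono : ∃ T1 : ℝ, StrictMonoOn vt (Ici T1) := by
  obtain ⟨T1, hT1, h⟩ := vt_grow
  refine ⟨T1, fun x hx y _ hxy => ?_⟩
  have := h x y hx hxy.le
  linarith

lemma vt_max : ∃ X1 : ℝ, 1 ≤ X1 ∧ ∀ X ≥ X1, ∀ t : ℝ, 0 < t → t ≤ X → vt t ≤ vt X := by
  obtain ⟨T1, hT1, h⟩ := vt_grow
  obtain ⟨B, hB⟩ := (isCompact_Icc (a := (0 : ℝ)) (b := T1)).exists_bound_of_continuousOn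
    vt_cont.continuousOn
  have hB1 := hB T1 ⟨by linarith, le_rfl⟩
  rw [Real.norm_eq_abs, abs_le] at hB1
  have hB0 : 0 ≤ B := by linarith [hB1.1, hB1.2]
  refine ⟨T1 + 4 * B, by linarith, fun X hX t ht htX => ?_⟩
  rcases le_or_gt T1 t with h1 | h1
  · have := h t X h1 htX
    linarith
  · have h2 := hB t ⟨ht.le, h1.le⟩
    rw [Real.norm_eq_abs, abs_le] at h2
    have h3 := h T1 X le_rfl (by linarith)
    linarith [h2.2, hB1.1]

open Classical in
/-- **Gram intervals with a simple zero up to `X`** -/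
theorem gram_long {F : ℂ → ℂ} (hF : GoodL F) {c : ℝ} (hc0 : 0 ≤ c) (hc : c < 2 - 1.327503)
    (A : ℝ → Set ℝ) (hA1 : ∀ X, (A X).Finite) (hA2 : ∀ X Y, X ≤ Y → A X ⊆ A Y)
    (hA3 : ∀ X, ∀ t ∈ A X, 0 < t ∧ t ≤ X)
    (hA4 : ∀ T : ℝ, 10 ≤ T → ∀ x : ℝ, T < x → x ≤ T + T →
      (1 / 2 + I * x : ℂ) ∈ zset F T (T + T) → mult F (1 / 2 + I * x) = 1 → x ∈ A (T + T)) :
    ∃ b X0 : ℝ, 10 ≤ X0 ∧ ∀ X : ℝ, X0 ≤ X →
      c * (X * Real.log X / (2 * Real.pi)) - b * X ≤ 2 * ((gi '' A X).ncard : ℝ) := by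
  obtain ⟨d, hd0, hd1, T0, hT0, hshort⟩ := gram_short hF hc0 hc
  obtain ⟨C, hC, hcnt⟩ := H965SI.countShort F hF
  obtain ⟨X1, hX1, hmax⟩ := vt_max
  have hlogsmall : ∀ᶠ T : ℝ in atTop, (Real.log T) ^ 2 ≤ T := by
    have h := (isLittleO_log_rpow_atTop (show (0 : ℝ) < 1 / 2 by norm_num)).bound one_pos
    filter_upwards [h, eventually_ge_atTop (1 : ℝ)] with T hT hT1
    have hTpos : 0 < T := by linarith
    rw [one_mul, Real.norm_eq_abs, Real.norm_eq_abs, abs_of_nonneg (Real.log_nonneg hT1),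
      abs_of_nonneg (Real.rpow_nonneg hTpos.le _)] at hT
    have h2 := pow_le_pow_left₀ (Real.log_nonneg hT1) hT 2
    refine h2.trans (le_of_eq ?_)
    rw [← Real.rpow_natCast, ← Real.rpow_mul hTpos.le]
    norm_num
  obtain ⟨T4, hT4⟩ := hlogsmall.exists_forall_of_atTop
  set X0 : ℝ := max (max T0 X1) (max T4 10) with hX0
  have hX00 : T0 ≤ X0 := (le_max_left _ _).trans (le_max_left _ _)
  have hX01 : X1 ≤ X0 := (le_max_right _ _).trans (le_max_left _ _)
  have hX04 : T4 ≤ X0 := (le_max_left _ _).trans (le_max_right _ _)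
  have hX010 : 10 ≤ X0 := (le_max_right _ _).trans (le_max_right _ _)
  have hpi := Real.pi_pos
  -- the step
  have step : ∀ X : ℝ, X0 ≤ X → 2 * ((gi '' A X).ncard : ℝ) + c * (NN F X (X + X) : ℝ) - 2 ≤
      2 * ((gi '' A (X + X)).ncard : ℝ) := by
    intro X hX
    have hX10 : 10 ≤ X := hX010.trans hX
    obtain ⟨S, hS, hSc⟩ := hshort X (hX00.trans hX) X (by
      calc X ^ (1 - d) ≤ X ^ (1 : ℝ) :=
            Real.rpow_le_rpow_of_exponent_le (by linarith) (by linarith)
        _ = X := Real.rpow_one X) le_rfl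
    have hfin1 : (gi '' A X).Finite := (hA1 X).image gi
    have hfin2 : (gi '' A (X + X)).Finite := (hA1 _).image gi
    have hsub : gi '' A X ∪ ((S.image gi : Finset ℤ) : Set ℤ) ⊆ gi '' A (X + X) := by
      intro n hn
      rcases hn with hn | hn
      · exact Set.image_mono (hA2 X (X + X) (by linarith)) hn
      · rw [Finset.coe_image] at hn
        obtain ⟨x, hx, rfl⟩ := hn
        obtain ⟨h1, h2, h3, h4⟩ := hS x hx
        exact ⟨x, hA4 X hX10 x h1 h2 h3 h4, rfl⟩
    have hint : gi '' A X ∩ ((S.image gi : Finset ℤ) : Set ℤ) ⊆ {gi X} := by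
      rintro n ⟨⟨t, ht, htn⟩, hn⟩
      rw [Finset.coe_image] at hn
      obtain ⟨x, hx, hxn⟩ := hn
      obtain ⟨h1, h2, h3, h4⟩ := hS x hx
      obtain ⟨h5, h6⟩ := hA3 X t ht
      have h7 := hmax X (hX01.trans hX) t h5 h6
      have h8 := hmax x (by linarith) X (by linarith) h1.le
      have h9 : gi t ≤ gi X := Int.ceil_mono (div_le_div_of_nonneg_right h7 hpi.le)
      have h10 : gi X ≤ gi x := Int.ceil_mono (div_le_div_of_nonneg_right h8 hpi.le)
      rw [mem_singleton_iff]
      omega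
    have e1 := Set.ncard_union_add_ncard_inter (gi '' A X) ((S.image gi : Finset ℤ) : Set ℤ)
      hfin1 (Finset.finite_toSet _)
    have e2 := Set.ncard_le_ncard hsub hfin2
    have e3 := Set.ncard_le_ncard hint (Set.finite_singleton _)
    rw [Set.ncard_singleton] at e3
    rw [Set.ncard_coe_finset] at e1
    have e4 : ((gi '' A X).ncard : ℝ) + ((S.image gi).card : ℝ) ≤
        ((gi '' A (X + X)).ncard : ℝ) + 1 := by
      have : (gi '' A X).ncard + (S.image gi).card ≤ (gi '' A (X + X)).ncard + 1 := by omega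
      exact_mod_cast this
    linarith
  -- the number of zeros
  have cnt : ∀ X : ℝ, X0 ≤ X → X * Real.log X / (2 * Real.pi) - 2 * C * X ≤
      (NN F X (X + X) : ℝ) := by
    intro X hX
    have hX10 : 10 ≤ X := hX010.trans hX
    have h1 := (abs_le.mp (hcnt X hX10 X (by linarith) le_rfl X (X + X) le_rfl (by linarith)
      (by linarith) le_rfl).1).1
    have h2 := hT4 X (hX04.trans hX)
    have h3 : C * (X + (Real.log X) ^ 2) ≤ C * (X + X) := by gcongr
    linarith
  have hlog2 : Real.log 2 ≤ 1 := by linarith [Real.log_two_lt_d9]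
  -- the claim
  set b : ℝ := c * (Real.log (X0 + X0)) / (2 * Real.pi) + 2 * (c * (2 * C + 1) + 1) with hb
  have hlogX0 : 0 ≤ Real.log (X0 + X0) := Real.log_nonneg (by linarith)
  have hb1 : c * (Real.log (X0 + X0)) / (2 * Real.pi) ≤ b := by
    rw [hb]
    have : 0 ≤ 2 * (c * (2 * C + 1) + 1) := by positivity
    linarith
  have hb2 : 2 * (c * (2 * C + 1) + 1) ≤ b := by
    rw [hb]
    have : 0 ≤ c * (Real.log (X0 + X0)) / (2 * Real.pi) := by positivity
    linarith
  have main : ∀ k : ℕ, ∀ X : ℝ, X0 ≤ X → X ≤ 2 ^ k * (X0 + X0) →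
      c * (X * Real.log X / (2 * Real.pi)) - b * X ≤ 2 * ((gi '' A X).ncard : ℝ) := by
    intro k
    induction k with
    | zero =>
      intro X hX1 hX2
      rw [pow_zero, one_mul] at hX2
      have hX0 : 0 < X := by linarith
      have h1 : Real.log X ≤ Real.log (X0 + X0) := Real.log_le_log hX0 hX2
      have h2 : c * (X * Real.log X / (2 * Real.pi)) - b * X ≤ 0 := by
        have h3 : c * (X * Real.log X / (2 * Real.pi)) =
            c * Real.log X / (2 * Real.pi) * X := by ring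
        rw [h3]
        have h4 : c * Real.log X / (2 * Real.pi) ≤ c * (Real.log (X0 + X0)) / (2 * Real.pi) := by
          gcongr
        have h5 : c * Real.log X / (2 * Real.pi) * X ≤ b * X :=
          mul_le_mul_of_nonneg_right (h4.trans hb1) hX0.le
        linarith
      exact h2.trans (by positivity)
    | succ k ih =>
      intro X hX1 hX2
      rcases le_or_gt X (2 ^ k * (X0 + X0)) with h | h
      · exact ih X hX1 h
      · have hXX : X0 + X0 ≤ X := by
          have : (1 : ℝ) ≤ 2 ^ k := one_le_pow₀ (by norm_num)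
          nlinarith
        have hY1 : X0 ≤ X / 2 := by linarith
        have hY2 : X / 2 ≤ 2 ^ k * (X0 + X0) := by
          rw [pow_succ] at hX2
          linarith
        have h1 := ih (X / 2) hY1 hY2
        have h2 := step (X / 2) hY1
        have h3 := cnt (X / 2) hY1
        have e : X / 2 + X / 2 = X := by ring
        rw [e] at h2 h3
        have hX0' : 0 < X := by linarith
        have hlog : Real.log (X / 2) = Real.log X - Real.log 2 :=
          Real.log_div hX0'.ne' (by norm_num)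
        rw [hlog] at h1 h3
        have h4 := mul_le_mul_of_nonneg_left h3 hc0
        have h5 : c * (X / 2 * (Real.log X - Real.log 2) / (2 * Real.pi)) =
            c * (X * Real.log X / (2 * Real.pi)) / 2 -
              c * (X / 2) * (Real.log 2 / (2 * Real.pi)) := by ring
        have h6 : Real.log 2 / (2 * Real.pi) ≤ 1 / 2 := by
          rw [div_le_div_iff₀ (by positivity) (by norm_num)]
          have := Real.pi_gt_three
          linarith
        have h7 : c * (X / 2) * (Real.log 2 / (2 * Real.pi)) ≤ c * (X / 2) * (1 / 2) := by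
          gcongr
        have h8 : c * (X / 2 * (Real.log X - Real.log 2) / (2 * Real.pi) - 2 * C * (X / 2)) =
            c * (X / 2 * (Real.log X - Real.log 2) / (2 * Real.pi)) - c * C * X := by ring
        rw [h8] at h4
        have h9 : 2 * (c * (2 * C + 1) + 1) * X ≤ b * X :=
          mul_le_mul_of_nonneg_right hb2 hX0'.le
        have h10 : 0 ≤ c * C * X := by positivity
        have h11 : 0 ≤ c * X := by positivity
        nlinarith
  refine ⟨b, X0, hX010, fun X hX => ?_⟩
  obtain ⟨k, hk⟩ := pow_unbounded_of_one_lt X (one_lt_two : (1 : ℝ) < 2)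
  refine main k X hX (hk.le.trans ?_)
  have : (0 : ℝ) < 2 ^ k := by positivity
  nlinarith

/-- comparison with the total number of the Gram intervals -/
theorem gram_total {c c' b : ℝ} (hc' : 0 ≤ c') (hc : c' < c) : ∃ X0 : ℝ, ∀ X : ℝ, X0 ≤ X →
    c' * (vt X / Real.pi) ≤ c * (X * Real.log X / (2 * Real.pi)) - b * X := by
  obtain ⟨C, hC, h⟩ := vt_upper
  have hpi := Real.pi_pos
  obtain ⟨X1, hX1⟩ := (Real.tendsto_log_atTop.eventually_ge_atTop
    ((b + c' * C / Real.pi) * (2 * Real.pi) / (c - c'))).exists_forall_of_atTop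
  refine ⟨max 1 X1, fun X hX => ?_⟩
  have hX0 : 1 ≤ X := (le_max_left _ _).trans hX
  have h1 := hX1 X ((le_max_right _ _).trans hX)
  rw [div_le_iff₀ (by linarith)] at h1
  have h2 := h X hX0
  have h3 : c' * (vt X / Real.pi) ≤ c' * ((X * Real.log X / 2 + C * X) / Real.pi) := by gcongr
  have h4 : c' * ((X * Real.log X / 2 + C * X) / Real.pi) =
      c' * (X * Real.log X / (2 * Real.pi)) + c' * C / Real.pi * X := by field_simp
  rw [h4] at h3
  refine h3.trans ?_
  have h5 : (b + c' * C / Real.pi) * X ≤ (c - c') * (X * Real.log X / (2 * Real.pi)) := by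
    have e : (c - c') * (X * Real.log X / (2 * Real.pi)) =
        (Real.log X * (c - c')) * (X / (2 * Real.pi)) := by ring
    rw [e]
    have e2 : (b + c' * C / Real.pi) * X =
        ((b + c' * C / Real.pi) * (2 * Real.pi)) * (X / (2 * Real.pi)) := by field_simp
    rw [e2]
    exact mul_le_mul_of_nonneg_right h1 (by positivity)
  linarith

end Pool.Agent.R304.GR
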